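import Pool.Agent.H281R3.HT.AMain

open CategoryTheory AlgebraicGeometry

universe u v w

namespace Pool.Agent.Results.MP_5f0950_ag.AbelianActions

open Pool.Agent.H914 Pool.Agent.H914.VarClass Pool.Agent.H914.VarClass.Obj
  Pool.Agent.H281R3.HT Pool.Agent.H447

/-- **The standard conjectures B and D for products of varieties with many automorphisms**: let
`W` be a Weil cohomology theory with algebraically closed coefficients and `S` a conjugation of
it. Let `P i` be varieties with a commutative group of automorphisms of finite exponent `e`, such
that the common eigenspaces on the transcendental cohomology of `P i` have dimension at most one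
and `S` inverts the `e`-th roots of unity. Then the conjecture `D` for the varieties `P i` is
equivalent to the conjectures `D` and `B` for all varieties dominated by products of them; for
curves and surfaces the conjecture `D` for divisors is enough. -/
theorem result {k : Type u} [Field k] {𝒱 : VarClass k} {ops : CycleOps 𝒱}
    (W : WeilCohomology.{u, v} ops) [IsAlgClosed W.K] (S : Conjugation W)
    {ι : Type w} (P : ι → 𝒱.Obj) (hA : ∀ i, Nonempty (AbelianAction S (P i))) :
    ((∀ i, HomEqNum W (P i)) ↔
      ∀ Q, IsProductOf (Set.range P) Q → ∀ Y, Dominates W Q Y → HomEqNum W Y ∧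
        ∀ D, Y.IsCyc 1 D → HardLefschetz W Y D → LefschetzB W Y D) ∧
    ∀ i, (P i).dim ≤ 2 → (∃ D, (P i).IsCyc 1 D ∧ HardLefschetz W (P i) D) →
      HomEqNumIn W (P i) 1 → HomEqNum W (P i) :=
  ⟨abelian_products S P hA, fun _ h2 ⟨_, hD, hHL⟩ hM => homEqNum_surface h2 hD hHL hM⟩

end Pool.Agent.Results.MP_5f0950_ag.AbelianActions
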