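import Mathlib
import Pool.Agent.H194R3.Tate.PairMain
import Pool.Agent.H194R3.Tate.Num

/-!
# Standard conjecture D for abelian varieties over finite fields, pair-transitive Frobenius fields

Let `q = p ^ a`, and let `π i` be finitely many Weil `q`-numbers, such that all powers of `π i`
generate a CM field `K i` of degree `2 * n i` (the simple abelian variety given by `π i` is
absolutely simple).  Suppose that the maximal real subfield of `K i` is pair-transitive (the
automorphisms of the complex numbers act transitively on the unordered pairs of its embeddings; no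
other condition on `K i`), that `n i` is odd, or `n i - 1` is prime, or the action on the unordered
triples is transitive as well (for example: Galois group the symmetric or alternating group, any
degree), that no `π i` is of Weil type, and that embeddings of `K i` and `K j`, for different `i`
and `j`, are flipped.  Let `A` be any abelian variety over an algebraic closure of the field with
`q` elements which is isogenous to a product of powers of the simple abelian varieties given by
the `π i`.

Then homological and numerical equivalence coincide for cycles on `A` in all codimensions, and for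
EVERY Weil cohomology.  More precisely: `V` is the first cohomology of `A`, with coefficients
extended to an algebraically closed field, `F` the Frobenius endomorphism (for the field with `q`
elements), so that the cohomology of `A` is the exterior algebra on `V`, and `F` acts on the top
degree `2 g` by `q ^ g`.  A cycle of codimension `j` on `A` is defined over the extension of degree
`s` for some `s > 0`, so its class `x` satisfies `F ^ s x = q ^ (j s) x`.  The theorem says: if `x`
is orthogonal to all products of `g - j` classes `y` of degree two with `F y = q y` (these are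
spanned by classes of divisors, by the theorem of Tate, for every Weil cohomology), then `x = 0`.
There is no condition on the slopes.
-/

set_option autoImplicit false

namespace Pool.Agent.Results.MP_5f0950_ag.PairTransitiveFrobeniusD

open Module NumberField Pool.Agent.H194R3.CM Pool.Agent.H194R3.Tate

/-- A class `x` of degree `2 j` which is a Tate class over the extension of degree `s`, and whose
products with all products of `g - j` Tate classes of degree two (over the base field) are zero,
is zero. -/
theorem result (p : ℕ) [Fact p.Prime] (a : ℕ) {I : Type} [Finite I] (K : I → Type)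
    [∀ i, Field (K i)] [∀ i, NumberField (K i)] [∀ i, IsCMField (K i)]
    (hpair : ∀ i, PairTransitive (maximalRealSubfield (K i)))
    (hdeg : ∀ i, Odd (finrank ℚ (maximalRealSubfield (K i))) ∨
      (finrank ℚ (maximalRealSubfield (K i)) - 1).Prime ∨
        TripleTransitive (maximalRealSubfield (K i)))
    (hflip : ∀ x y : Σ i, (K i →+* ℂ), y.1 ≠ x.1 → Flipped x y)
    (π : ∀ i, K i) (hint : ∀ i, IsIntegral ℤ (π i))
    (hgen : ∀ i, ∀ s : ℕ, 0 < s → IntermediateField.adjoin ℚ {π i ^ s} = ⊤)
    (hweil : ∀ i, ∀ φ : K i →+* ℂ, ‖φ (π i)‖ ^ 2 = (p : ℝ) ^ a)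
    (hW : ∀ i, ¬ WeilSlopes p (π i) a)
    {Ω : Type*} [Field Ω] [IsAlgClosed Ω] [CharZero Ω]
    {V : Type*} [AddCommGroup V] [Module Ω V] [FiniteDimensional Ω V] (F : V →ₗ[Ω] V)
    (hF : Submodule.span Ω {v : V | ∃ i, ∃ σ : K i →+* Ω, F v = σ (π i) • v} = ⊤)
    (g : ℕ) (hdim : finrank Ω V = 2 * g) (hdet : LinearMap.det F = ((p : Ω) ^ a) ^ g)
    (j s : ℕ) (hj : j ≤ g) (hs : 0 < s) (x : ExteriorAlgebra Ω V) (hx : x ∈ ⋀[Ω]^(2 * j) V)
    (hFx : ExteriorAlgebra.map (F ^ s) x = (((p : Ω) ^ a) ^ j) ^ s • x)
    (hnum : ∀ y : Fin (g - j) → ExteriorAlgebra Ω V,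
      (∀ l, y l ∈ ⋀[Ω]^2 V ∧ ExteriorAlgebra.map F (y l) = (p : Ω) ^ a • y l) →
        x * (List.ofFn y).prod = 0) : x = 0 := by
  have hp0 : (p : Ω) ≠ 0 := by exact_mod_cast (Fact.out : p.Prime).ne_zero
  have hq : (0 : ℚ) < (p : ℚ) ^ a := pow_pos (by exact_mod_cast (Fact.out : p.Prime).pos) _
  have hcast : (((p : ℚ) ^ a : ℚ) : Ω) = (p : Ω) ^ a := by
    push_cast
    rfl
  have hweil' : ∀ i, ∀ φ : K i →+* ℂ, ‖φ (π i)‖ ^ 2 = (((p : ℚ) ^ a : ℚ) : ℝ) := by
    intro i φ
    rw [hweil i φ]
    push_cast
    rfl
  refine eq_zero_of_numerical F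
    {μ : Ω | ∃ i, ∃ σ : K i →+* Ω, σ (π i) = μ} ?_ ((p : Ω) ^ a) (pow_ne_zero _ hp0) g hdim hdet
    j hj s (fun y hy hFy => ?_) x hx hFx hnum
  · rw [← hF]
    congr 1
    ext v
    constructor
    · rintro ⟨μ, ⟨i, σ, rfl⟩, h⟩
      exact ⟨i, σ, h⟩
    · rintro ⟨i, σ, h⟩
      exact ⟨_, ⟨i, σ, rfl⟩, h⟩
  · rw [← hcast] at hFy ⊢
    exact ext_of_norel p ((p : ℚ) ^ a) hq π
      (fun i => by simpa only [pow_one] using hgen i 1 one_pos) hweil'
      (fun _ => norel_of_pair p (fun _ => a) π hint hgen hweil' hpair hdeg hW hflip)
      F hF (g - j) s hs y hy hFy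

end Pool.Agent.Results.MP_5f0950_ag.PairTransitiveFrobeniusD
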