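import Pool.Agent.H447R3.DegB

open CategoryTheory AlgebraicGeometry

universe u v

open Pool.Agent.H914 Pool.Agent.H914.VarClass Pool.Agent.H914.VarClass.Obj Pool.Agent.H447

/-- **The standard conjecture D for the square of a variety can be tested in two codimensions.**
Let `X` be a smooth proper variety of dimension `n` over an algebraically closed field, `W` a Weil
cohomology theory and `D` a divisor on `X` whose class satisfies hard Lefschetz. Then the
following are equivalent: homological and numerical equivalence coincide on `X × X` (in all
codimensions); they coincide on `X × X` in the two codimensions `n` and `n + 1`; they coincide on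
`X × X` in codimension `n` and the Lefschetz standard conjecture B holds for `X`. -/
theorem Pool.Agent.Results.MP_5f0950_ag.SquareTwoDegrees.result {k : Type u} [Field k]
    [IsAlgClosed k] {𝒱 : VarClass k} {ops : CycleOps 𝒱} (W : WeilCohomology.{u, v} ops)
    (X : 𝒱.Obj) (D : X.Cycles) (hD : X.IsCyc 1 D) (hHL : HardLefschetz W X D) :
    List.TFAE [HomEqNum W (X.prod X),
      HomEqNumIn W (X.prod X) X.dim ∧ HomEqNumIn W (X.prod X) (X.dim + 1),
      HomEqNumIn W (X.prod X) X.dim ∧ LefschetzB W X D] :=
  d_tfae hD hHL
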